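import Mathlib

set_option autoImplicit false
set_option synthInstance.maxHeartbeats 400000

namespace Q41.GF

open Polynomial IntermediateField

theorem coeff_coeff_swap {k : Type*} [CommRing k] (p : k[X][X]) (i j : ℕ) :
    ((Bivariate.swap p).coeff j).coeff i = (p.coeff i).coeff j := by
  induction p using Polynomial.induction_on' with
  | add a b ha hb => simp [ha, hb]
  | monomial n a =>
    induction a using Polynomial.induction_on' with
    | add a b ha hb => simp [ha, hb]
    | monomial m c =>
      rw [Bivariate.swap_monomial_monomial]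
      simp only [coeff_monomial]
      by_cases h1 : m = j <;> by_cases h2 : n = i <;> simp [h1, h2, coeff_monomial]

theorem natDegree_coeff_le_swap {k : Type*} [CommRing k] (p : k[X][X]) (i : ℕ) :
    (p.coeff i).natDegree ≤ (Bivariate.swap p).natDegree := by
  rw [natDegree_le_iff_coeff_eq_zero]
  intro j hj
  rw [← coeff_coeff_swap, coeff_eq_zero_of_natDegree_lt hj, coeff_zero]

theorem natDegree_le_of_sq_mul {k : Type*} [Field k] {c D w q : k[X]} (hc : c ≠ 0) (hw : w ≠ 0)
    (hq : Squarefree q) (h : c ^ 2 * D = w ^ 2 * q) : q.natDegree ≤ D.natDegree := by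
  classical
  letI : NormalizedGCDMonoid k[X] := Classical.arbitrary _
  obtain ⟨c', w', hc', hw', hu⟩ := extract_gcd c w
  have hg : gcd c w ≠ 0 := by
    intro h0
    rw [h0, zero_mul] at hc'
    exact hc hc'
  have hc0 : c' ≠ 0 := by
    rintro rfl
    rw [mul_zero] at hc'
    exact hc hc'
  have hw0 : w' ≠ 0 := by
    rintro rfl
    rw [mul_zero] at hw'
    exact hw hw'
  have h1 : c' ^ 2 * D = w' ^ 2 * q := by
    have h2 : gcd c w ^ 2 * (c' ^ 2 * D) = gcd c w ^ 2 * (w' ^ 2 * q) := by
      calc gcd c w ^ 2 * (c' ^ 2 * D) = (gcd c w * c') ^ 2 * D := by ring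
        _ = c ^ 2 * D := by rw [← hc']
        _ = w ^ 2 * q := h
        _ = (gcd c w * w') ^ 2 * q := by rw [← hw']
        _ = _ := by ring
    exact mul_left_cancel₀ (pow_ne_zero 2 hg) h2
  have hrel : IsCoprime c' w' := by
    have h3 : IsRelPrime c' w' := (gcd_isUnit_iff_isRelPrime).1 hu
    exact h3.isCoprime
  have hdvd : c' ^ 2 ∣ q := by
    have h4 : c' ^ 2 ∣ w' ^ 2 * q := ⟨D, h1.symm⟩
    exact (hrel.pow (m := 2) (n := 2)).dvd_of_dvd_mul_left h4
  have hunit : IsUnit c' := hq c' (by rw [← sq]; exact hdvd)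
  have hD : D ≠ 0 := by
    rintro rfl
    rw [mul_zero] at h1
    exact mul_ne_zero (pow_ne_zero 2 hw0) hq.ne_zero h1.symm
  have h5 := congrArg natDegree h1
  rw [natDegree_mul (pow_ne_zero 2 hc0) hD, natDegree_mul (pow_ne_zero 2 hw0) hq.ne_zero,
    natDegree_pow, natDegree_eq_zero_of_isUnit hunit] at h5
  omega

theorem degree_bound {k K : Type*} [Field k] [Field K] [Algebra k K] (h2 : (2 : k) ≠ 0)
    {u v A : K} (hu : Transcendental k u) {q : k[X]} (hq : Squarefree q)
    (hv : v ^ 2 = -aeval u q) {r s t : k[X]} (hs : s ≠ 0) (ht : t ≠ 0)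
    (hA : aeval u t * A = aeval u r + aeval u s * v) (hAu : A ∉ k⟮u⟯)
    {R : k[X][X]} (hR0 : R ≠ 0) {d : ℕ} (hRd : R.natDegree ≤ d)
    (hR : (R.map (aeval A).toRingHom).eval u = 0) : q.natDegree ≤ 2 * d := by
  classical
  letI : NormalizedGCDMonoid k[X] := Classical.arbitrary _
  have hinj : Function.Injective (aeval u : k[X] →ₐ[k] K).toRingHom := by
    have : Function.Injective (aeval u : k[X] →ₐ[k] K) := by
      rw [← transcendental_iff_injective]; exact hu
    exact this
  let E := FractionRing k[X]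
  letI : Algebra E K := (IsFractionRing.lift (K := E) hinj).toAlgebra
  have hmapE : ∀ a : k[X], algebraMap E K (algebraMap k[X] E a) = aeval u a := fun a =>
    IsFractionRing.lift_algebraMap hinj a
  have hrange : ∀ x : E, algebraMap E K x ∈ k⟮u⟯ := by
    intro x
    obtain ⟨a, b, hb, rfl⟩ := IsFractionRing.div_surjective (A := k[X]) x
    rw [map_div₀, hmapE, hmapE]
    exact (mem_adjoin_simple_iff k _).2 ⟨a, b, rfl⟩
  have hev : ∀ (p : k[X][X]) (x : K), aeval x (p.map (algebraMap k[X] E)) =
      (p.map (aeval u).toRingHom).eval x := by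
    intro p x
    rw [aeval_def, eval₂_map, eval_map]
    have h1 : (algebraMap E K).comp (algebraMap k[X] E) = (aeval u).toRingHom :=
      RingHom.ext fun a => hmapE a
    rw [h1]
  let G0 : k[X][X] := C (t ^ 2) * X ^ 2 + C (-(2 * r * t)) * X + C (r ^ 2 + s ^ 2 * q)
  have hG0A : aeval A (G0.map (algebraMap k[X] E)) = 0 := by
    rw [hev]
    simp only [G0, Polynomial.map_add, Polynomial.map_mul, map_C, Polynomial.map_pow, map_X,
      eval_add, eval_mul, eval_C, eval_pow, eval_X]
    change aeval u (t ^ 2) * A ^ 2 + aeval u (-(2 * r * t)) * A + aeval u (r ^ 2 + s ^ 2 * q) = 0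
    simp only [map_add, map_mul, map_pow, map_neg, map_ofNat]
    have h3 : (aeval u t * A - aeval u r) ^ 2 = (aeval u s * v) ^ 2 := by rw [hA]; ring
    have h4 : (aeval u s * v) ^ 2 = -(aeval u s ^ 2 * aeval u q) := by rw [mul_pow, hv]; ring
    rw [h4] at h3
    linear_combination h3
  have hG0c : G0.coeff 2 = t ^ 2 ∧ G0.coeff 1 = -(2 * r * t) ∧ G0.coeff 0 = r ^ 2 + s ^ 2 * q := by
    have hgen : ∀ a b c : k[X], (C a * X ^ 2 + C b * X + C c : k[X][X]).coeff 2 = a ∧
        (C a * X ^ 2 + C b * X + C c : k[X][X]).coeff 1 = b ∧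
        (C a * X ^ 2 + C b * X + C c : k[X][X]).coeff 0 = c := by
      intro a b c
      refine ⟨?_, ?_, ?_⟩ <;>
        simp [coeff_X, coeff_C, coeff_X_pow]
    exact hgen _ _ _
  have hG0deg : G0.natDegree = 2 := by
    have := natDegree_quadratic (a := t ^ 2) (b := -(2 * r * t)) (c := r ^ 2 + s ^ 2 * q)
      (pow_ne_zero 2 ht)
    exact this
  have hG0ne : G0 ≠ 0 := by
    intro h0
    rw [h0, natDegree_zero] at hG0deg
    omega
  have hinjE : Function.Injective (algebraMap k[X] E) := IsFractionRing.injective _ _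
  have hG0E : G0.map (algebraMap k[X] E) ≠ 0 := by
    rw [Ne, Polynomial.map_eq_zero_iff hinjE]; exact hG0ne
  have hG0Edeg : (G0.map (algebraMap k[X] E)).natDegree = 2 := by
    rw [natDegree_map_eq_of_injective hinjE, hG0deg]
  have hint : IsIntegral E A := by
    rw [← isAlgebraic_iff_isIntegral]
    exact ⟨_, hG0E, hG0A⟩
  set m := minpoly E A with hm
  have hm2 : 2 ≤ m.natDegree := by
    have h1 : 0 < m.natDegree := minpoly.natDegree_pos hint
    rcases Nat.lt_or_ge m.natDegree 2 with h | h
    · exfalso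
      have h3 : m.natDegree = 1 := by omega
      have h4 : m.degree = 1 := by
        rw [degree_eq_natDegree (minpoly.ne_zero hint), h3]; rfl
      obtain ⟨x, hx⟩ := minpoly.mem_range_of_degree_eq_one E A h4
      exact hAu (hx ▸ hrange x)
    · exact h
  have hG0eq := eq_leadingCoeff_mul_of_monic_of_dvd_of_natDegree_le (minpoly.monic hint)
    (minpoly.dvd E A hG0A) (by rw [hG0Edeg]; exact hm2)
  set R' := Bivariate.swap R with hR'
  have hR'A : aeval A (R'.map (algebraMap k[X] E)) = 0 := by
    rw [hev]
    have h1 : ∀ p : k[X][X], ((Bivariate.swap p).map (aeval u).toRingHom).eval A =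
        (p.map (aeval A).toRingHom).eval u := by
      intro p
      induction p using Polynomial.induction_on' with
      | add a b ha hb => simp only [map_add, Polynomial.map_add, eval_add, ha, hb]
      | monomial n a =>
        induction a using Polynomial.induction_on' with
        | add a b ha hb => simp only [map_add, Polynomial.map_add, eval_add, ha, hb]
        | monomial m c =>
          rw [Bivariate.swap_monomial_monomial]
          simp only [map_monomial, eval_monomial]
          change aeval u (monomial n c) * A ^ m = aeval A (monomial m c) * u ^ n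
          rw [aeval_monomial, aeval_monomial]
          ring
    rw [h1, hR]
  have hdvdR : m ∣ R'.map (algebraMap k[X] E) := minpoly.dvd E A hR'A
  have hlc : (G0.map (algebraMap k[X] E)).leadingCoeff ≠ 0 := leadingCoeff_ne_zero.2 hG0E
  have hG0R : G0.map (algebraMap k[X] E) ∣ R'.map (algebraMap k[X] E) := by
    rw [hG0eq]
    rw [(isUnit_C.2 hlc.isUnit).mul_left_dvd]
    exact hdvdR
  have hG0G : G0 = C G0.content * G0.primPart := G0.eq_C_content_mul_primPart
  set G := G0.primPart with hG
  have hprim : G.IsPrimitive := G0.isPrimitive_primPart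
  have hGE : G.map (algebraMap k[X] E) ∣ R'.map (algebraMap k[X] E) := by
    refine dvd_trans ?_ hG0R
    refine ⟨C (algebraMap k[X] E G0.content), ?_⟩
    conv_lhs => rw [hG0G]
    rw [Polynomial.map_mul, map_C, mul_comm]
  have hGR : G ∣ R' := hprim.dvd_of_fraction_map_dvd_fraction_map hGE
  have hswap : Bivariate.swap G ∣ R := by
    have h1 := map_dvd (Bivariate.swap (R := k)) hGR
    rw [hR', Bivariate.swap_swap_apply] at h1
    exact h1
  have hdeg : (Bivariate.swap G).natDegree ≤ d := (natDegree_le_of_dvd hswap hR0).trans hRd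
  have hc : ∀ i, (G.coeff i).natDegree ≤ d := fun i => (natDegree_coeff_le_swap G i).trans hdeg
  have hcont : G0.content ≠ 0 := by
    rw [Ne, content_eq_zero_iff]; exact hG0ne
  have hci : ∀ i, G0.content * G.coeff i = G0.coeff i := by
    intro i
    conv_rhs => rw [hG0G]
    rw [coeff_C_mul]
  have hdisc : G0.content ^ 2 * (-(G.coeff 1 ^ 2 - 4 * G.coeff 0 * G.coeff 2)) =
      (2 * s * t) ^ 2 * q := by
    have e : G0.content ^ 2 * (-(G.coeff 1 ^ 2 - 4 * G.coeff 0 * G.coeff 2)) =
      -((G0.content * G.coeff 1) ^ 2 - 4 * (G0.content * G.coeff 0) * (G0.content * G.coeff 2)) := by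
      ring
    rw [e, hci, hci, hci, hG0c.1, hG0c.2.1, hG0c.2.2]
    ring
  have h2' : (2 : k[X]) ≠ 0 := by
    intro h
    apply h2
    have := congrArg (eval 0) h
    simpa using this
  have hfin := natDegree_le_of_sq_mul hcont (mul_ne_zero (mul_ne_zero h2' hs) ht) hq hdisc
  rw [natDegree_neg] at hfin
  refine hfin.trans ?_
  refine (natDegree_sub_le _ _).trans (max_le ?_ ?_)
  · exact natDegree_pow_le.trans (by have := hc 1; omega)
  · refine natDegree_mul_le.trans ?_
    have h6 : (4 * G.coeff 0 : k[X]).natDegree ≤ (G.coeff 0).natDegree := by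
      refine natDegree_mul_le.trans ?_
      have : (4 : k[X]).natDegree = 0 := natDegree_ofNat 4
      omega
    have := hc 0
    have := hc 2
    omega

end Q41.GF
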