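import Mathlib

set_option autoImplicit false
set_option synthInstance.maxHeartbeats 400000

namespace Q41.GF

open Polynomial IntermediateField

/-- Clearing denominators: finitely many elements of `k(A)` have a common denominator. -/
theorem common_denominator {k K : Type*} [Field k] [Field K] [Algebra k K] (A : K)
    (m : ℕ → K) (hm : ∀ i, m i ∈ k⟮A⟯) (N : ℕ) :
    ∃ g : k[X], aeval A g ≠ 0 ∧ ∀ i, i < N → ∃ t : k[X], aeval A t = aeval A g * m i := by
  induction N with
  | zero => exact ⟨1, by simp, fun i hi => by omega⟩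
  | succ N ih =>
    obtain ⟨g, hg, h⟩ := ih
    obtain ⟨r, s, hrs⟩ := (mem_adjoin_simple_iff k (m N)).1 (hm N)
    by_cases hs : aeval A s = 0
    · refine ⟨g, hg, fun i hi => ?_⟩
      rcases Nat.lt_succ_iff_lt_or_eq.1 hi with h1 | rfl
      · exact h i h1
      · exact ⟨0, by rw [hrs, hs]; simp⟩
    · refine ⟨g * s, by rw [map_mul]; exact mul_ne_zero hg hs, fun i hi => ?_⟩
      rcases Nat.lt_succ_iff_lt_or_eq.1 hi with h1 | rfl
      · obtain ⟨t, ht⟩ := h i h1
        exact ⟨t * s, by rw [map_mul, map_mul, ht]; ring⟩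
      · exact ⟨g * r, by rw [map_mul, map_mul, hrs]; field_simp⟩

/-- If `p(A, B) = 0` with `p` of degree at most `d` in the second variable and `u ∈ k(A, B)`, then
`R(A, u) = 0` for some `R` of degree at most `d` in the second variable. -/
theorem exists_rel {k K : Type*} [Field k] [Field K] [Algebra k K] {A B u : K}
    (hA : Transcendental k A) {d : ℕ} {p : k[X][X]} (hp0 : p ≠ 0) (hpd : p.natDegree ≤ d)
    (hp : (p.map (aeval A).toRingHom).eval B = 0) (hu : u ∈ IntermediateField.adjoin k {A, B}) :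
    ∃ R : k[X][X], R ≠ 0 ∧ R.natDegree ≤ d ∧ (R.map (aeval A).toRingHom).eval u = 0 := by
  have hinj : Function.Injective (aeval A : k[X] →ₐ[k] K) := by
    rw [← transcendental_iff_injective]; exact hA
  have hmem : ∀ q : k[X], aeval A q ∈ k⟮A⟯ := fun q =>
    (mem_adjoin_simple_iff k _).2 ⟨q, 1, by simp⟩
  let φ : k[X] →+* k⟮A⟯ := ((aeval (AdjoinSimple.gen k A) : k[X] →ₐ[k] k⟮A⟯) : k[X] →+* k⟮A⟯)
  have hφ : ∀ q, ((φ q : k⟮A⟯) : K) = aeval A q := by
    intro q
    change ((aeval (AdjoinSimple.gen k A) q : k⟮A⟯) : K) = _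
    have := (aeval_algebraMap_apply K (AdjoinSimple.gen k A) q)
    rw [AdjoinSimple.algebraMap_gen] at this
    exact this.symm
  have hφinj : Function.Injective φ := by
    intro a b hab
    apply hinj
    change aeval A a = aeval A b
    rw [← hφ, ← hφ, hab]
  have hmap : ∀ (q : k[X][X]) (x : K), aeval x (q.map φ) = (q.map (aeval A).toRingHom).eval x := by
    intro q x
    rw [aeval_def, eval₂_map, eval_map]
    have h1 : (algebraMap k⟮A⟯ K).comp φ = (aeval A).toRingHom := RingHom.ext fun a => hφ a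
    rw [h1]
  have hB : aeval B (p.map φ) = 0 := by rw [hmap]; exact hp
  have hpφ : p.map φ ≠ 0 := by
    rw [Ne, Polynomial.map_eq_zero_iff hφinj]; exact hp0
  have hint : IsIntegral k⟮A⟯ B := by
    rw [← isAlgebraic_iff_isIntegral]
    exact ⟨_, hpφ, hB⟩
  have hdeg : (minpoly k⟮A⟯ B).natDegree ≤ d := by
    refine (natDegree_le_of_dvd (minpoly.dvd _ _ hB) hpφ).trans ?_
    exact (natDegree_map_le).trans hpd
  have hfin : FiniteDimensional k⟮A⟯ (k⟮A⟯⟮B⟯) := adjoin.finiteDimensional hint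
  have hrank : Module.finrank k⟮A⟯ (k⟮A⟯⟮B⟯) ≤ d := by
    rw [adjoin.finrank hint]; exact hdeg
  have hu' : u ∈ k⟮A⟯⟮B⟯ := by
    have h1 : (k⟮A⟯⟮B⟯).restrictScalars k = IntermediateField.adjoin k {A, B} :=
      adjoin_simple_adjoin_simple (F := k) (α := A) (β := B)
    rw [← h1] at hu
    exact hu
  have hmin : (minpoly k⟮A⟯ u).natDegree ≤ d := by
    have h1 : minpoly k⟮A⟯ (⟨u, hu'⟩ : k⟮A⟯⟮B⟯) = minpoly k⟮A⟯ u :=
      minpoly_eq (⟨u, hu'⟩ : k⟮A⟯⟮B⟯)
    rw [← h1]
    exact (minpoly.natDegree_le _).trans hrank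
  have huint : IsIntegral k⟮A⟯ u := by
    have h2 : IsIntegral k⟮A⟯ (⟨u, hu'⟩ : k⟮A⟯⟮B⟯) := IsIntegral.of_finite _ _
    exact (isIntegral_algHom_iff (k⟮A⟯⟮B⟯).val Subtype.val_injective).2 h2
  set m := minpoly k⟮A⟯ u with hmdef
  obtain ⟨g, hg, ht⟩ := common_denominator A (fun i => ((m.coeff i : k⟮A⟯) : K))
    (fun i => (m.coeff i).2) (d + 1)
  choose! t ht using ht
  refine ⟨∑ i ∈ Finset.range (d + 1), C (t i) * X ^ i, ?_, ?_, ?_⟩
  · intro h0
    have h1 : (∑ i ∈ Finset.range (d + 1), C (t i) * X ^ i : k[X][X]).coeff m.natDegree = 0 := by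
      rw [h0, coeff_zero]
    simp only [finsetSum_coeff, coeff_C_mul, coeff_X_pow, mul_ite, mul_one, mul_zero] at h1
    rw [Finset.sum_ite_eq, if_pos (Finset.mem_range.2 (by omega))] at h1
    have h2 := ht m.natDegree (by omega)
    rw [h1, map_zero] at h2
    have h3 : m.coeff m.natDegree = 1 := (minpoly.monic huint).coeff_natDegree
    simp only [h3, OneMemClass.coe_one, mul_one] at h2
    exact hg h2.symm
  · apply (natDegree_sum_le _ _).trans
    apply Finset.sup_le
    intro i hi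
    rw [Finset.mem_range] at hi
    exact (natDegree_C_mul_X_pow_le _ _).trans (by omega)
  · rw [Polynomial.map_sum, eval_finsetSum]
    simp only [Polynomial.map_mul, map_C, Polynomial.map_pow, map_X, eval_mul, eval_C, eval_pow,
      eval_X]
    have h1 : ∀ i ∈ Finset.range (d + 1), (aeval A).toRingHom (t i) * u ^ i =
        aeval A g * (((m.coeff i : k⟮A⟯) : K) * u ^ i) := by
      intro i hi
      rw [Finset.mem_range] at hi
      change aeval A (t i) * u ^ i = _
      rw [ht i hi]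
      ring
    rw [Finset.sum_congr rfl h1, ← Finset.mul_sum]
    have h2 : aeval u m = 0 := minpoly.aeval _ _
    rw [aeval_eq_sum_range' (n := d + 1) (by omega)] at h2
    have h3 : ∑ i ∈ Finset.range (d + 1), ((m.coeff i : k⟮A⟯) : K) * u ^ i = 0 := by
      rw [← h2]
      refine Finset.sum_congr rfl fun i _ => ?_
      rw [Algebra.smul_def]
      rfl
    rw [h3, mul_zero]

end Q41.GF
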