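import Mathlib
import Pool.Agent.Q41.GF.Rel
import Pool.Agent.Q41.GF.Quad

set_option autoImplicit false
set_option synthInstance.maxHeartbeats 400000

namespace Q41.GF

open Polynomial IntermediateField

/-- On the curve `v² = -q(u)` every polynomial in `1, u, v` has the form `α(u) + β(u) v`. -/
theorem exists_repr (q : ℂ[X]) (W : MvPolynomial (Fin 3) ℂ) :
    ∃ α β : ℂ[X], ∀ (A : Type) [CommRing A] [Algebra ℂ A] (u v : A), v ^ 2 = -aeval u q →
      MvPolynomial.aeval ![1, u, v] W = aeval u α + aeval u β * v := by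
  induction W using MvPolynomial.induction_on with
  | C a =>
    refine ⟨C a, 0, fun A _ _ u v h => ?_⟩
    simp
  | add p p' hp hp' =>
    obtain ⟨α, β, h⟩ := hp
    obtain ⟨α', β', h'⟩ := hp'
    refine ⟨α + α', β + β', fun A _ _ u v hv => ?_⟩
    rw [map_add, h A u v hv, h' A u v hv, map_add, map_add]
    ring
  | mul_X p i hp =>
    obtain ⟨α, β, h⟩ := hp
    fin_cases i
    · refine ⟨α, β, fun A _ _ u v hv => ?_⟩
      rw [map_mul, h A u v hv]
      simp
    · refine ⟨α * X, β * X, fun A _ _ u v hv => ?_⟩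
      rw [map_mul, h A u v hv]
      simp
      ring
    · refine ⟨-(β * q), α, fun A _ _ u v hv => ?_⟩
      rw [map_mul, h A u v hv]
      simp
      linear_combination (aeval u β) * hv

theorem norm_ne_zero {q : ℂ[X]} (hodd : Odd q.natDegree) {α β : ℂ[X]}
    (h : α ^ 2 + β ^ 2 * q = 0) : α = 0 ∧ β = 0 := by
  have hq : q ≠ 0 := by
    rintro rfl
    simp at hodd
  by_cases hβ : β = 0
  · subst hβ
    refine ⟨?_, rfl⟩
    have : α ^ 2 = 0 := by linear_combination h
    exact pow_eq_zero_iff (two_ne_zero) |>.1 this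
  · exfalso
    have h1 : α ^ 2 = -(β ^ 2 * q) := by linear_combination h
    have h2 := congrArg natDegree h1
    rw [natDegree_neg, natDegree_mul (pow_ne_zero 2 hβ) hq, natDegree_pow, natDegree_pow] at h2
    obtain ⟨c, hc⟩ := hodd
    omega

theorem aeval_mul_of_isHomogeneous {K : Type*} [Field K] [Algebra ℂ K] {n m : ℕ}
    {P : MvPolynomial (Fin n) ℂ} (hP : P.IsHomogeneous m) (c : K) (a : Fin n → K) :
    MvPolynomial.aeval (fun i => c * a i) P = c ^ m * MvPolynomial.aeval a P := by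
  rw [MvPolynomial.aeval_def, MvPolynomial.aeval_def, MvPolynomial.eval₂_eq', MvPolynomial.eval₂_eq',
    Finset.mul_sum]
  refine Finset.sum_congr rfl fun e he => ?_
  have hdeg : e.degree = m := by
    by_contra hne
    exact (MvPolynomial.mem_support_iff.1 he) (hP.coeff_eq_zero hne)
  have h1 : ∏ i, (c * a i) ^ e i = c ^ m * ∏ i, a i ^ e i := by
    rw [← hdeg, Finsupp.degree_eq_sum, ← Finset.prod_pow_eq_pow_sum, ← Finset.prod_mul_distrib]
    exact Finset.prod_congr rfl fun i _ => mul_pow _ _ _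
  rw [h1]
  ring

theorem aeval_mem {K : Type*} [Field K] [Algebra ℂ K] (L : IntermediateField ℂ K)
    {n : ℕ} {a : Fin n → K} (ha : ∀ i, a i ∈ L) (P : MvPolynomial (Fin n) ℂ) :
    MvPolynomial.aeval a P ∈ L := by
  induction P using MvPolynomial.induction_on with
  | C c => rw [MvPolynomial.aeval_C]; exact L.algebraMap_mem c
  | add p p' hp hp' => rw [map_add]; exact L.add_mem hp hp'
  | mul_X p i hp => rw [map_mul, MvPolynomial.aeval_X]; exact L.mul_mem hp (ha i)

/-- Existence of a point where a nonzero polynomial does not vanish. -/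
theorem exists_eval_ne_zero {ι : Type*} {P : MvPolynomial ι ℂ} (hP : P ≠ 0) :
    ∃ z : ι → ℂ, MvPolynomial.eval z P ≠ 0 := by
  by_contra hcon
  push Not at hcon
  exact hP (MvPolynomial.funext fun z => by rw [hcon z, map_zero])

/- Dehomogenisation: a relation of degree at most `d` in the second variable. -/
theorem fin3_cases {i j k : Fin 3} (hij : i ≠ j) (hik : i ≠ k) (hjk : j ≠ k) (l : Fin 3) :
    l = i ∨ l = j ∨ l = k := by
  revert i j k l
  decide

theorem exists_dehom {K : Type} [Field K] [Algebra ℂ K] {P : MvPolynomial (Fin 3) ℂ} {b d : ℕ}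
    (hP : P.IsHomogeneous b) (hP0 : P ≠ 0) (hbd : b ≤ d) {i j k : Fin 3}
    (hij : i ≠ j) (hik : i ≠ k) (hjk : j ≠ k) (ρ : Fin 3 → K) (hρj : ρ j = 1)
    (hρ : MvPolynomial.aeval ρ P = 0) :
    ∃ p : ℂ[X][X], p ≠ 0 ∧ p.natDegree ≤ d ∧ (p.map (aeval (ρ i)).toRingHom).eval (ρ k) = 0 := by
  have hall : ∀ l : Fin 3, l = i ∨ l = j ∨ l = k := fin3_cases hij hik hjk
  let f : Fin 3 → ℂ[X][X] := fun l => if l = j then 1 else if l = i then C X else X
  have hfi : f i = C X := by simp [f, hij]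
  have hfj : f j = 1 := by simp [f]
  have hfk : f k = X := by simp [f, hjk.symm, hik.symm]
  let p : ℂ[X][X] := MvPolynomial.aeval f (MvPolynomial.map (C : ℂ →+* ℂ[X]) P)
  have hev : ∀ (L : Type) [Field L] [Algebra ℂ L] (r : Fin 3 → L), r j = 1 →
      (p.map (aeval (r i)).toRingHom).eval (r k) = MvPolynomial.aeval r P := by
    intro L _ _ r hr
    let ψ : ℂ[X][X] →+* L := (evalRingHom (r k)).comp (mapRingHom (aeval (r i)).toRingHom)
    have hψ : (p.map (aeval (r i)).toRingHom).eval (r k) = ψ p := rfl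
    rw [hψ]
    have h1 : ∀ P : MvPolynomial (Fin 3) ℂ, ψ (MvPolynomial.aeval f
        (MvPolynomial.map (C : ℂ →+* ℂ[X]) P)) = MvPolynomial.aeval r P := by
      intro P
      induction P using MvPolynomial.induction_on with
      | C c =>
        rw [MvPolynomial.map_C, MvPolynomial.aeval_C, MvPolynomial.aeval_C]
        change ((C (C c) : ℂ[X][X]).map (aeval (r i)).toRingHom).eval (r k) = _
        rw [map_C, eval_C]
        change aeval (r i) (C c) = _
        rw [aeval_C]
      | add p p' hp hp' => rw [map_add, map_add, map_add, map_add, hp, hp']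
      | mul_X p l hp =>
        rw [map_mul, map_mul, map_mul, map_mul, hp, MvPolynomial.map_X, MvPolynomial.aeval_X,
          MvPolynomial.aeval_X]
        congr 1
        rcases hall l with rfl | rfl | rfl
        · rw [hfi]
          change ((C X : ℂ[X][X]).map (aeval (r l)).toRingHom).eval (r k) = _
          rw [map_C, eval_C]
          change aeval (r l) X = _
          rw [aeval_X]
        · rw [hfj, hr, map_one]
        · rw [hfk]
          change ((X : ℂ[X][X]).map (aeval (r i)).toRingHom).eval (r l) = _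
          rw [map_X, eval_X]
    exact h1 P
  refine ⟨p, ?_, ?_, ?_⟩
  · intro hp0
    obtain ⟨z, hz⟩ := exists_eval_ne_zero (mul_ne_zero hP0 (MvPolynomial.X_ne_zero (R := ℂ) j))
    rw [map_mul, MvPolynomial.eval_X] at hz
    have hz1 : MvPolynomial.eval z P ≠ 0 := left_ne_zero_of_mul hz
    have hz2 : z j ≠ 0 := right_ne_zero_of_mul hz
    have h1 := hev ℂ (fun l => (z j)⁻¹ * z l) (inv_mul_cancel₀ hz2)
    rw [hp0, Polynomial.map_zero, eval_zero, aeval_mul_of_isHomogeneous hP] at h1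
    rcases mul_eq_zero.1 h1.symm with h2 | h2
    · exact pow_ne_zero b (inv_ne_zero hz2) h2
    · apply hz1
      rw [← h2]
      simp [MvPolynomial.aeval_eq_eval]
  · refine (MvPolynomial.aeval_natDegree_le (m := d) _ ?_ f (n := 1) ?_).trans (by omega)
    · exact (hP.map C).totalDegree_le.trans hbd
    · intro l
      rcases hall l with rfl | rfl | rfl
      · rw [hfi, natDegree_C]; exact Nat.zero_le _
      · rw [hfj, natDegree_one]; exact Nat.zero_le _
      · rw [hfk]; exact natDegree_X_le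
  · rw [hev K ρ hρj]
    exact hρ

/-- The heart of the matter: on the curve `v² = -q(u)` (with `q` squarefree of odd degree `n`) a
form of degree at most `d` composed with a Cremona transformation can vanish only if
`n ≤ 2 d`. -/
theorem curve_main {q : ℂ[X]} (hq : Squarefree q) (hodd : Odd q.natDegree)
    (σ τ : Fin 3 → MvPolynomial (Fin 3) ℂ) {m : ℕ} (hτ : ∀ i, (τ i).IsHomogeneous m)
    {h : MvPolynomial (Fin 3) ℂ}
    (hστ : ∀ i, MvPolynomial.bind₁ σ (τ i) = h * MvPolynomial.X i)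
    {P : MvPolynomial (Fin 3) ℂ} {b d : ℕ} (hP : P.IsHomogeneous b) (hP0 : P ≠ 0) (hbd : b ≤ d)
    (g : MvPolynomial (Fin 3) ℂ)
    (hvan : ∀ u v : ℂ, v ^ 2 = -q.eval u → MvPolynomial.eval ![1, u, v] g ≠ 0 →
      MvPolynomial.eval (fun i => MvPolynomial.eval ![1, u, v] (σ i)) P = 0)
    (hg : ∃ u v : ℂ, v ^ 2 = -q.eval u ∧ MvPolynomial.eval ![1, u, v] g ≠ 0)
    (hh : ∃ u v : ℂ, v ^ 2 = -q.eval u ∧ MvPolynomial.eval ![1, u, v] h ≠ 0) :
    q.natDegree ≤ 2 * d := by
  classical
  let K : Type := AlgebraicClosure (RatFunc ℂ)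
  obtain ⟨u, hu⟩ : ∃ u : K, Transcendental ℂ u := by
    refine ⟨algebraMap (RatFunc ℂ) K RatFunc.X, ?_⟩
    rw [transcendental_algebraMap_iff (FaithfulSMul.algebraMap_injective (RatFunc ℂ) K)]
    exact RatFunc.transcendental_X
  obtain ⟨v, hv⟩ : ∃ v : K, v ^ 2 = -aeval u q := IsAlgClosed.exists_pow_nat_eq _ (by norm_num)
  have hq0 : q ≠ 0 := hq.ne_zero
  have nz : ∀ α β : ℂ[X], aeval u α + aeval u β * v = 0 → α = 0 ∧ β = 0 := by
    intro α β h0
    apply norm_ne_zero hodd
    have h1 : aeval u (α ^ 2 + β ^ 2 * q) = 0 := by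
      simp only [map_add, map_mul, map_pow]
      linear_combination (aeval u α - aeval u β * v) * h0 + (aeval u β) ^ 2 * hv
    exact (transcendental_iff.1 hu) _ h1
  have hvu : v ∉ ℂ⟮u⟯ := by
    intro hmem
    obtain ⟨r, s, hrs⟩ := (mem_adjoin_simple_iff ℂ v).1 hmem
    by_cases hs : aeval u s = 0
    · rw [hs, div_zero] at hrs
      rw [hrs] at hv
      have : aeval u q = 0 := by linear_combination hv
      exact hq0 ((transcendental_iff.1 hu) _ this)
    · have h1 : aeval u r + aeval u (-s) * v = 0 := by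
        have h3 : aeval u s * v = aeval u r := by rw [hrs, mul_div_cancel₀ _ hs]
        rw [map_neg]
        linear_combination -h3
      have h2 := (nz _ _ h1).2
      apply hs
      have : s = 0 := neg_eq_zero.1 h2
      rw [this, map_zero]
  have van1 : ∀ W : MvPolynomial (Fin 3) ℂ, (∃ u v : ℂ, v ^ 2 = -q.eval u ∧
      MvPolynomial.eval ![1, u, v] W ≠ 0) → MvPolynomial.aeval ![1, u, v] W ≠ 0 := by
    rintro W ⟨u0, v0, hc, hW⟩ h0
    obtain ⟨α, β, hr⟩ := exists_repr q W
    rw [hr K u v hv] at h0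
    obtain ⟨rfl, rfl⟩ := nz _ _ h0
    apply hW
    have := hr ℂ u0 v0 (by rw [hc]; simp [coe_aeval_eq_eval])
    simpa [MvPolynomial.aeval_eq_eval] using this
  have van2 : ∀ W : MvPolynomial (Fin 3) ℂ, (∀ u v : ℂ, v ^ 2 = -q.eval u →
      MvPolynomial.eval ![1, u, v] W = 0) → MvPolynomial.aeval ![1, u, v] W = 0 := by
    intro W hW
    obtain ⟨α, β, hr⟩ := exists_repr q W
    by_cases hN : α ^ 2 + β ^ 2 * q = 0
    · obtain ⟨rfl, rfl⟩ := norm_ne_zero hodd hN
      rw [hr K u v hv]
      simp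
    · exfalso
      apply hN
      apply Polynomial.funext
      intro u0
      obtain ⟨v0, hv0⟩ : ∃ v0 : ℂ, v0 ^ 2 = -q.eval u0 :=
        IsAlgClosed.exists_pow_nat_eq _ (by norm_num)
      have h1 := hr ℂ u0 v0 (by rw [hv0]; simp [coe_aeval_eq_eval])
      have h2 := hW u0 v0 hv0
      rw [MvPolynomial.aeval_eq_eval] at h1
      change MvPolynomial.eval ![1, u0, v0] W = _ at h1
      rw [h2] at h1
      simp only [coe_aeval_eq_eval] at h1
      simp only [eval_add, eval_mul, eval_pow, eval_zero]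
      linear_combination (-(eval u0 α) + eval u0 β * v0) * h1 + (eval u0 β) ^ 2 * hv0
  set η : Fin 3 → K := ![1, u, v] with hη
  let a : Fin 3 → K := fun i => MvPolynomial.aeval η (σ i)
  have hbind : ∀ W : MvPolynomial (Fin 3) ℂ, MvPolynomial.aeval a W =
      MvPolynomial.aeval η (MvPolynomial.bind₁ σ W) := fun W =>
    (MvPolynomial.aeval_bind₁ _ _ _).symm
  have hFa : MvPolynomial.aeval a P = 0 := by
    have h1 : MvPolynomial.aeval η (MvPolynomial.bind₁ σ P * g) = 0 := by
      apply van2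
      intro u0 v0 hc
      rw [map_mul]
      by_cases hg0 : MvPolynomial.eval ![1, u0, v0] g = 0
      · rw [hg0, mul_zero]
      · have := hvan u0 v0 hc hg0
        have e : MvPolynomial.eval ![1, u0, v0] (MvPolynomial.bind₁ σ P) =
            MvPolynomial.eval (fun i => MvPolynomial.eval ![1, u0, v0] (σ i)) P := by
          rw [MvPolynomial.eval, MvPolynomial.eval₂Hom_bind₁]
          rfl
        rw [e, this, zero_mul]
    rw [map_mul] at h1
    rw [hbind]
    exact (mul_eq_zero.1 h1).resolve_right (van1 g hg)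
  have hha : MvPolynomial.aeval η h ≠ 0 := van1 h hh
  have hτa : ∀ i, MvPolynomial.aeval a (τ i) = MvPolynomial.aeval η h * η i := by
    intro i
    rw [hbind, hστ, map_mul, MvPolynomial.aeval_X]
  have hη0 : η 0 = 1 := rfl
  have hη1 : η 1 = u := rfl
  have hη2 : η 2 = v := rfl
  have huC : ∀ c : ℂ, algebraMap ℂ K c ≠ u := by
    intro c hc
    apply hu
    rw [← hc]
    exact isAlgebraic_algebraMap c
  obtain ⟨j, hj⟩ : ∃ j, a j ≠ 0 := by
    by_contra hcon
    push Not at hcon
    have ha0 : a = fun _ => 0 := funext hcon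
    have hc : ∀ W : MvPolynomial (Fin 3) ℂ, MvPolynomial.aeval a W =
        algebraMap ℂ K (MvPolynomial.constantCoeff W) := by
      intro W
      rw [ha0]
      exact MvPolynomial.aeval_zero' W
    have h0 := hτa 0
    have h1 := hτa 1
    rw [hc, hη0, mul_one] at h0
    rw [hc, hη1, ← h0] at h1
    have h2 : algebraMap ℂ K (MvPolynomial.constantCoeff (τ 0)) ≠ 0 := by rw [h0]; exact hha
    apply huC (MvPolynomial.constantCoeff (τ 1) / MvPolynomial.constantCoeff (τ 0))
    rw [map_div₀, h1, mul_div_cancel_left₀ _ h2]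
  let ρ : Fin 3 → K := fun i => (a j)⁻¹ * a i
  have hρj : ρ j = 1 := inv_mul_cancel₀ hj
  have hρ0 : ∀ {W : MvPolynomial (Fin 3) ℂ} {l : ℕ}, W.IsHomogeneous l →
      MvPolynomial.aeval ρ W = (a j)⁻¹ ^ l * MvPolynomial.aeval a W := fun hW =>
    aeval_mul_of_isHomogeneous hW _ _
  have hρP : MvPolynomial.aeval ρ P = 0 := by rw [hρ0 hP, hFa, mul_zero]
  have hρτ : ∀ i, MvPolynomial.aeval ρ (τ i) = MvPolynomial.aeval ρ (τ 0) * η i := by
    intro i
    rw [hρ0 (hτ i), hρ0 (hτ 0), hτa, hτa, hη0]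
    ring
  have hρτ0 : MvPolynomial.aeval ρ (τ 0) ≠ 0 := by
    rw [hρ0 (hτ 0), hτa, hη0, mul_one]
    exact mul_ne_zero (pow_ne_zero m (inv_ne_zero hj)) hha
  have hmem : ∀ L : IntermediateField ℂ K, (∀ i, ρ i ∈ L) → ∀ i, η i ∈ L := by
    intro L hL i
    have : η i = MvPolynomial.aeval ρ (τ i) / MvPolynomial.aeval ρ (τ 0) := by
      rw [hρτ i, mul_div_cancel_left₀ _ hρτ0]
    rw [this]
    exact L.div_mem (aeval_mem L hL _) (aeval_mem L hL _)
  obtain ⟨i, hi⟩ : ∃ i, ρ i ∉ ℂ⟮u⟯ := by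
    by_contra hcon
    push Not at hcon
    exact hvu (hmem _ hcon 2)
  have hij : i ≠ j := by
    rintro rfl
    apply hi
    rw [hρj]
    exact one_mem _
  obtain ⟨k, hik, hjk⟩ : ∃ k, i ≠ k ∧ j ≠ k := by
    revert hij
    clear_value ρ
    clear hi hρτ0 hρτ hρP hρ0 hρj hj hmem
    clear ρ
    revert i j
    decide
  obtain ⟨p, hp0, hpd, hp⟩ := exists_dehom hP hP0 hbd hij hik hjk ρ hρj hρP
  have hAtr : Transcendental ℂ (ρ i) := by
    intro halg
    apply hi
    have h1 : ρ i ∈ (algebraMap ℂ K).range := by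
      have h2 := (IsAlgClosed.algebraMap_bijective_of_isIntegral (k := ℂ) (K := algebraicClosure ℂ K))
      obtain ⟨c, hc⟩ := h2.2 ⟨ρ i, halg.isIntegral⟩
      exact ⟨c, congrArg Subtype.val hc⟩
    obtain ⟨c, hc⟩ := h1
    rw [← hc]
    exact (ℂ⟮u⟯).algebraMap_mem c
  have huAB : u ∈ IntermediateField.adjoin ℂ {ρ i, ρ k} := by
    refine hmem _ (fun l => ?_) 1
    rcases fin3_cases hij hik hjk l with rfl | rfl | rfl
    · exact subset_adjoin _ _ (by simp)
    · rw [hρj]; exact one_mem _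
    · exact subset_adjoin _ _ (by simp)
  obtain ⟨R, hR0, hRd, hR⟩ := exists_rel hAtr hp0 hpd hp huAB
  obtain ⟨αi, βi, hri⟩ := exists_repr q (σ i)
  obtain ⟨αj, βj, hrj⟩ := exists_repr q (σ j)
  have hai : a i = aeval u αi + aeval u βi * v := hri K u v hv
  have haj : a j = aeval u αj + aeval u βj * v := hrj K u v hv
  have ht : αj ^ 2 + βj ^ 2 * q ≠ 0 := by
    intro h0
    obtain ⟨rfl, rfl⟩ := norm_ne_zero hodd h0
    apply hj
    rw [haj]
    simp
  have hA : aeval u (αj ^ 2 + βj ^ 2 * q) * ρ i =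
      aeval u (αi * αj + βi * βj * q) + aeval u (βi * αj - αi * βj) * v := by
    have h1 : ρ i * a j = a i := by
      change (a j)⁻¹ * a i * a j = a i
      rw [mul_right_comm, inv_mul_cancel₀ hj, one_mul]
    rw [haj, hai] at h1
    simp only [map_add, map_mul, map_pow, map_sub]
    linear_combination (aeval u αj - aeval u βj * v) * h1 +
      (aeval u βj ^ 2 * ρ i - aeval u βi * aeval u βj) * hv
  have hs : βi * αj - αi * βj ≠ 0 := by
    intro h0
    apply hi
    rw [h0, map_zero, zero_mul, add_zero] at hA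
    have ht' : aeval u (αj ^ 2 + βj ^ 2 * q) ≠ 0 := fun h1 =>
      ht ((transcendental_iff.1 hu) _ h1)
    refine (mem_adjoin_simple_iff ℂ _).2 ⟨αi * αj + βi * βj * q, αj ^ 2 + βj ^ 2 * q, ?_⟩
    rw [← hA, mul_div_cancel_left₀ _ ht']
  exact degree_bound two_ne_zero hu hq hv hs ht hA hi hR0 hRd hR

end Q41.GF
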