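import Mathlib

set_option autoImplicit false
set_option synthInstance.maxHeartbeats 400000

/-!
# Almost grid-free hypersurfaces in `ℙ^s × ℙ^s`: definitions
-/

namespace Q41.GF

open MvPolynomial LinearAlgebra.Projectivization

/-- The projective space `ℙ^s` over `ℂ`, as a set of points. -/
abbrev PS (s : ℕ) : Type := Projectivization ℂ (Fin (s + 1) → ℂ)

/-- `F(x, y)` is homogeneous of degree `a` in the variables `x` (the `inl` variables) and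
homogeneous of degree `b` in the variables `y` (the `inr` variables). -/
def IsBihom {s : ℕ} (F : MvPolynomial (Fin (s + 1) ⊕ Fin (s + 1)) ℂ) (a b : ℕ) : Prop :=
  IsWeightedHomogeneous (Sum.elim (fun _ => 1) (fun _ => 0) : Fin (s + 1) ⊕ Fin (s + 1) → ℕ) F a ∧
    IsWeightedHomogeneous (Sum.elim (fun _ => 0) (fun _ => 1) : Fin (s + 1) ⊕ Fin (s + 1) → ℕ) F b

/-- The zero set in `ℙ^s × ℙ^s` of a (bihomogeneous) polynomial `F(x, y)`. -/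
def zeroLocus {s : ℕ} (F : MvPolynomial (Fin (s + 1) ⊕ Fin (s + 1)) ℂ) : Set (PS s × PS s) :=
  {p | eval (Sum.elim p.1.rep p.2.rep) F = 0}

/-- Zariski-open subsets of `ℙ^s`: unions of basic open sets `{g ≠ 0}`, `g` homogeneous. -/
def IsZariskiOpen {s : ℕ} (U : Set (PS s)) : Prop :=
  ∃ G : Set (MvPolynomial (Fin (s + 1)) ℂ), (∀ g ∈ G, ∃ n : ℕ, g.IsHomogeneous n) ∧
    ∀ p : PS s, p ∈ U ↔ ∃ g ∈ G, eval p.rep g ≠ 0

/-- `V` contains no `(s, t)`-grid `S × T`, `|S| = s`, `|T| = t`. -/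
def IsGridFree {α β : Type} (s t : ℕ) (V : Set (α × β)) : Prop :=
  ¬ ∃ (S : Finset α) (T : Finset β), S.card = s ∧ T.card = t ∧
    (S : Set α) ×ˢ (T : Set β) ⊆ V

/-- `V ∩ (X × Y)` is `(s, t)`-grid-free for some nonempty Zariski-open `X, Y ⊆ ℙ^s`. -/
def IsAlmostGridFree {s : ℕ} (t : ℕ) (V : Set (PS s × PS s)) : Prop :=
  ∃ X Y : Set (PS s), IsZariskiOpen X ∧ X.Nonempty ∧ IsZariskiOpen Y ∧ Y.Nonempty ∧
    IsGridFree s t (V ∩ X ×ˢ Y)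

/-- `V₁ ∩ (X × Y) = V₂ ∩ (X × Y)` for some nonempty Zariski-open `X, Y ⊆ ℙ^s`. -/
def AlmostEqual {s : ℕ} (V₁ V₂ : Set (PS s × PS s)) : Prop :=
  ∃ X Y : Set (PS s), IsZariskiOpen X ∧ X.Nonempty ∧ IsZariskiOpen Y ∧ Y.Nonempty ∧
    V₁ ∩ X ×ˢ Y = V₂ ∩ X ×ˢ Y

/-- The forms `σ₀, …, σ_s` are homogeneous of one degree, have no common factor, and define a
birational automorphism `(σ₀ : … : σ_s)` of `ℙ^s`: there are forms `τ₀, …, τ_s`, homogeneous of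
one degree, such that `τ ∘ σ` and `σ ∘ τ` are nonzero multiples of the identity. -/
def IsCremona {s : ℕ} (σ : Fin (s + 1) → MvPolynomial (Fin (s + 1)) ℂ) : Prop :=
  (∃ k : ℕ, ∀ i, (σ i).IsHomogeneous k) ∧
  (∀ g : MvPolynomial (Fin (s + 1)) ℂ, (∀ i, g ∣ σ i) → IsUnit g) ∧
  ∃ τ : Fin (s + 1) → MvPolynomial (Fin (s + 1)) ℂ, (∃ m : ℕ, ∀ i, (τ i).IsHomogeneous m) ∧
    ∃ h h' : MvPolynomial (Fin (s + 1)) ℂ, h ≠ 0 ∧ h' ≠ 0 ∧
      (∀ i, bind₁ σ (τ i) = h * X i) ∧ (∀ i, bind₁ τ (σ i) = h' * X i)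

/-- `F ∘ (id × σ)`, that is `F(x, σ₀(y), …, σ_s(y))`. -/
noncomputable def comp {s : ℕ} (F : MvPolynomial (Fin (s + 1) ⊕ Fin (s + 1)) ℂ)
    (σ : Fin (s + 1) → MvPolynomial (Fin (s + 1)) ℂ) :
    MvPolynomial (Fin (s + 1) ⊕ Fin (s + 1)) ℂ :=
  bind₁ (Sum.elim (fun i => X (Sum.inl i)) (fun i => rename Sum.inr (σ i))) F

/-- `V` is an irreducible hypersurface in `ℙ^s × ℙ^s`: the zero set of an irreducible
bihomogeneous polynomial. -/
def IsIrreducibleHypersurface {s : ℕ} (V : Set (PS s × PS s)) : Prop :=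
  ∃ F : MvPolynomial (Fin (s + 1) ⊕ Fin (s + 1)) ℂ, ∃ a b : ℕ,
    Irreducible F ∧ IsBihom F a b ∧ V = zeroLocus F

end Q41.GF
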