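import Mathlib
import Pool.Agent.Q41.GF.Defs

set_option autoImplicit false
set_option synthInstance.maxHeartbeats 400000

namespace Q41.GF

open MvPolynomial LinearAlgebra.Projectivization

/-- `x₀ y₀^(N+2) + x₁ y₀^(N+1) y₁ + x₂ (y₀^N y₂² + y₁^(N+2))`. -/
noncomputable def fam (N : ℕ) : MvPolynomial (Fin (2 + 1) ⊕ Fin (2 + 1)) ℂ :=
  X (Sum.inl 0) * X (Sum.inr 0) ^ (N + 2) +
    X (Sum.inl 1) * (X (Sum.inr 0) ^ (N + 1) * X (Sum.inr 1)) +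
    X (Sum.inl 2) * (X (Sum.inr 0) ^ N * X (Sum.inr 2) ^ 2 + X (Sum.inr 1) ^ (N + 2))

theorem eval_fam (N : ℕ) (x y : Fin (2 + 1) → ℂ) :
    eval (Sum.elim x y) (fam N) = x 0 * y 0 ^ (N + 2) + x 1 * (y 0 ^ (N + 1) * y 1) +
      x 2 * (y 0 ^ N * y 2 ^ 2 + y 1 ^ (N + 2)) := by
  simp [fam]

theorem isBihom_fam (N : ℕ) : IsBihom (fam N) 1 (N + 2) := by
  have hX1 : ∀ i : Fin (2 + 1), IsWeightedHomogeneous
      (Sum.elim (fun _ => 1) (fun _ => 0) : Fin (2 + 1) ⊕ Fin (2 + 1) → ℕ)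
      (X (Sum.inl i) : MvPolynomial (Fin (2 + 1) ⊕ Fin (2 + 1)) ℂ) 1 := fun i =>
    isWeightedHomogeneous_X ℂ _ _
  have hX0 : ∀ i : Fin (2 + 1), IsWeightedHomogeneous
      (Sum.elim (fun _ => 1) (fun _ => 0) : Fin (2 + 1) ⊕ Fin (2 + 1) → ℕ)
      (X (Sum.inr i) : MvPolynomial (Fin (2 + 1) ⊕ Fin (2 + 1)) ℂ) 0 := fun i =>
    isWeightedHomogeneous_X ℂ _ _
  have hY0 : ∀ i : Fin (2 + 1), IsWeightedHomogeneous
      (Sum.elim (fun _ => 0) (fun _ => 1) : Fin (2 + 1) ⊕ Fin (2 + 1) → ℕ)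
      (X (Sum.inl i) : MvPolynomial (Fin (2 + 1) ⊕ Fin (2 + 1)) ℂ) 0 := fun i =>
    isWeightedHomogeneous_X ℂ _ _
  have hY1 : ∀ i : Fin (2 + 1), IsWeightedHomogeneous
      (Sum.elim (fun _ => 0) (fun _ => 1) : Fin (2 + 1) ⊕ Fin (2 + 1) → ℕ)
      (X (Sum.inr i) : MvPolynomial (Fin (2 + 1) ⊕ Fin (2 + 1)) ℂ) 1 := fun i =>
    isWeightedHomogeneous_X ℂ _ _
  constructor
  · have h1 := (hX1 0).mul ((hX0 0).pow (N + 2))
    have h2 := (hX1 1).mul (((hX0 0).pow (N + 1)).mul (hX0 1))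
    have h3 := ((hX0 0).pow N).mul ((hX0 2).pow 2)
    have h4 := (hX0 1).pow (N + 2)
    rw [smul_zero] at h4
    rw [smul_zero, smul_zero, add_zero] at h3
    have h5 := (hX1 2).mul (h3.add h4)
    rw [smul_zero, add_zero] at h1
    rw [smul_zero, add_zero, add_zero] at h2
    rw [add_zero] at h5
    exact (h1.add h2).add h5
  · have h1 := (hY0 0).mul ((hY1 0).pow (N + 2))
    have h2 := (hY0 1).mul (((hY1 0).pow (N + 1)).mul (hY1 1))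
    have h3 := ((hY1 0).pow N).mul ((hY1 2).pow 2)
    have h4 := (hY1 1).pow (N + 2)
    rw [smul_eq_mul, mul_one] at h4
    rw [smul_eq_mul, smul_eq_mul, mul_one, mul_one] at h3
    have h5 := (hY0 2).mul (h3.add h4)
    rw [smul_eq_mul, mul_one, zero_add] at h1
    rw [smul_eq_mul, mul_one, zero_add] at h2
    rw [zero_add] at h5
    exact (h1.add h2).add h5

theorem irreducible_fam (N : ℕ) (hN : 0 < N) : Irreducible (fam N) := by
  classical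
  rw [← MulEquiv.irreducible_iff (sumAlgEquiv ℂ (Fin (2 + 1)) (Fin (2 + 1)))]
  let c : Fin (2 + 1) →₀ MvPolynomial (Fin (2 + 1)) ℂ := Finsupp.equivFunOnFinite.symm
    ![X 0 ^ (N + 2), X 0 ^ (N + 1) * X 1, X 0 ^ N * X 2 ^ 2 + X 1 ^ (N + 2)]
  have hc : sumAlgEquiv ℂ (Fin (2 + 1)) (Fin (2 + 1)) (fam N) = sumSMulX c := by
    rw [sumSMulX, Finsupp.linearCombination_apply, Finsupp.sum_fintype _ _ (by simp),
      Fin.sum_univ_three]
    have hs : ∀ i : Fin (2 + 1), c i • (X i : MvPolynomial (Fin (2 + 1))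
        (MvPolynomial (Fin (2 + 1)) ℂ)) = C (c i) * X i := fun i => smul_eq_C_mul _ _
    have c0 : c 0 = X 0 ^ (N + 2) := rfl
    have c1 : c 1 = X 0 ^ (N + 1) * X 1 := rfl
    have c2 : c 2 = X 0 ^ N * X 2 ^ 2 + X 1 ^ (N + 2) := rfl
    rw [hs, hs, hs, c0, c1, c2]
    simp only [fam, map_add, map_mul, map_pow, sumAlgEquiv_X_inl, sumAlgEquiv_X_inr]
    ring
  rw [hc]
  apply irreducible_sumSMulX
  · refine ⟨0, ?_⟩
    rw [Finsupp.mem_support_iff]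
    change (X 0 ^ (N + 2) : MvPolynomial (Fin (2 + 1)) ℂ) ≠ 0
    exact pow_ne_zero _ (X_ne_zero _)
  · intro r hr
    have h0 : r ∣ X 0 ^ (N + 2) := hr 0
    have h2 : r ∣ X 0 ^ N * X 2 ^ 2 + X 1 ^ (N + 2) := hr 2
    obtain ⟨k, hk, hrk⟩ := (dvd_prime_pow (X_prime (R := ℂ) (i := (0 : Fin (2 + 1)))) (N + 2)).1 h0
    rcases Nat.eq_zero_or_pos k with rfl | hk0
    · rw [pow_zero] at hrk
      exact hrk.isUnit_iff.2 isUnit_one
    · exfalso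
      have h3 : (X 0 : MvPolynomial (Fin (2 + 1)) ℂ) ∣ X 0 ^ N * X 2 ^ 2 + X 1 ^ (N + 2) :=
        ((dvd_pow_self _ hk0.ne').trans hrk.symm.dvd).trans h2
      obtain ⟨w, hw⟩ := h3
      have h4 := congrArg (eval ![0, 1, 0]) hw
      simp [hN.ne'] at h4

end Q41.GF
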