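import Mathlib
import Pool.Agent.Q41.GF.Defs
import Pool.Agent.Q41.GF.Family

set_option autoImplicit false
set_option synthInstance.maxHeartbeats 400000

namespace Q41.GF

open MvPolynomial LinearAlgebra.Projectivization

theorem eval_weighted {ι : Type*} [Fintype ι] {w : ι → ℕ} {F : MvPolynomial ι ℂ} {n : ℕ}
    (hF : IsWeightedHomogeneous w F n) (c : ℂ) (z : ι → ℂ) :
    eval (fun i => c ^ w i * z i) F = c ^ n * eval z F := by
  rw [eval_eq', eval_eq', Finset.mul_sum]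
  refine Finset.sum_congr rfl fun e he => ?_
  have hdeg : Finsupp.weight w e = n := hF (mem_support_iff.1 he)
  have h1 : ∏ i, (c ^ w i * z i) ^ e i = c ^ n * ∏ i, z i ^ e i := by
    have h2 : ∏ i, (c ^ w i) ^ e i = c ^ n := by
      rw [← hdeg, Finsupp.weight_apply, Finsupp.sum_fintype _ _ (by simp),
        ← Finset.prod_pow_eq_pow_sum]
      refine Finset.prod_congr rfl fun i _ => ?_
      rw [← pow_mul, smul_eq_mul, mul_comm]
    rw [← h2, ← Finset.prod_mul_distrib]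
    exact Finset.prod_congr rfl fun i _ => mul_pow _ _ _
  rw [h1]
  ring

theorem eval_bihom {s : ℕ} {F : MvPolynomial (Fin (s + 1) ⊕ Fin (s + 1)) ℂ} {a b : ℕ}
    (hF : IsBihom F a b) (c c' : ℂ) (x y : Fin (s + 1) → ℂ) :
    eval (Sum.elim (fun i => c * x i) (fun i => c' * y i)) F =
      c ^ a * c' ^ b * eval (Sum.elim x y) F := by
  have h1 := eval_weighted hF.1 c (Sum.elim x (fun i => c' * y i))
  have h2 := eval_weighted hF.2 c' (Sum.elim x y)
  have e1 : (fun i => c ^ (Sum.elim (fun _ => 1) (fun _ => 0) : Fin (s + 1) ⊕ Fin (s + 1) → ℕ) i *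
      (Sum.elim x (fun i => c' * y i)) i) = Sum.elim (fun i => c * x i) (fun i => c' * y i) := by
    funext i
    rcases i with i | i <;> simp
  have e2 : (fun i => c' ^ (Sum.elim (fun _ => 0) (fun _ => 1) : Fin (s + 1) ⊕ Fin (s + 1) → ℕ) i *
      (Sum.elim x y) i) = Sum.elim x (fun i => c' * y i) := by
    funext i
    rcases i with i | i <;> simp
  rw [e1] at h1
  rw [e2] at h2
  rw [h1, h2]
  ring

theorem eval_hom {s : ℕ} {g : MvPolynomial (Fin (s + 1)) ℂ} {m : ℕ} (hg : g.IsHomogeneous m)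
    (c : ℂ) (x : Fin (s + 1) → ℂ) : eval (fun i => c * x i) g = c ^ m * eval x g := by
  have h := eval_weighted hg c x
  simpa using h

theorem exists_rep {s : ℕ} (x : Fin (s + 1) → ℂ) (hx : x ≠ 0) :
    ∃ c : ℂ, c ≠ 0 ∧ (Projectivization.mk ℂ x hx).rep = fun i => c * x i := by
  obtain ⟨a, ha⟩ := Projectivization.exists_smul_eq_mk_rep ℂ x hx
  exact ⟨a, a.ne_zero, ha ▸ rfl⟩

theorem mk_mem_zeroLocus {s : ℕ} {F : MvPolynomial (Fin (s + 1) ⊕ Fin (s + 1)) ℂ} {a b : ℕ}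
    (hF : IsBihom F a b) {x y : Fin (s + 1) → ℂ} (hx : x ≠ 0) (hy : y ≠ 0) :
    (Projectivization.mk ℂ x hx, Projectivization.mk ℂ y hy) ∈ zeroLocus F ↔
      eval (Sum.elim x y) F = 0 := by
  obtain ⟨c, hc, hcx⟩ := exists_rep x hx
  obtain ⟨c', hc', hcy⟩ := exists_rep y hy
  change eval (Sum.elim (Projectivization.mk ℂ x hx).rep (Projectivization.mk ℂ y hy).rep) F = 0 ↔ _
  rw [hcx, hcy, eval_bihom hF]
  simp [hc, hc']

theorem mk_mem_zeroLocus_comp {s : ℕ} {F : MvPolynomial (Fin (s + 1) ⊕ Fin (s + 1)) ℂ} {a b : ℕ}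
    (hF : IsBihom F a b) {σ : Fin (s + 1) → MvPolynomial (Fin (s + 1)) ℂ} {k : ℕ}
    (hσ : ∀ i, (σ i).IsHomogeneous k) {x y : Fin (s + 1) → ℂ} (hx : x ≠ 0) (hy : y ≠ 0) :
    (Projectivization.mk ℂ x hx, Projectivization.mk ℂ y hy) ∈ zeroLocus (comp F σ) ↔
      eval (Sum.elim x (fun i => eval y (σ i))) F = 0 := by
  obtain ⟨c, hc, hcx⟩ := exists_rep x hx
  obtain ⟨c', hc', hcy⟩ := exists_rep y hy
  change eval (Sum.elim (Projectivization.mk ℂ x hx).rep (Projectivization.mk ℂ y hy).rep)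
    (comp F σ) = 0 ↔ _
  have h1 : ∀ x y : Fin (s + 1) → ℂ, eval (Sum.elim x y) (comp F σ) =
      eval (Sum.elim x (fun i => eval y (σ i))) F := by
    intro x y
    rw [comp, eval, eval₂Hom_bind₁]
    congr 1
    congr 1
    funext i
    rcases i with i | i
    · simp
    · simp only [Sum.elim_inr, coe_eval₂Hom, eval₂_rename]
      rfl
  rw [h1, hcx, hcy]
  have h2 : (fun i => eval (fun i => c' * y i) (σ i)) = fun i => c' ^ k * eval y (σ i) := by
    funext i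
    exact eval_hom (hσ i) c' y
  rw [h2, eval_bihom hF]
  simp [hc, hc']

theorem exists_basic {s : ℕ} {U : Set (PS s)} (hU : IsZariskiOpen U) (hne : U.Nonempty) :
    ∃ g : MvPolynomial (Fin (s + 1)) ℂ, g ≠ 0 ∧ (∃ n, g.IsHomogeneous n) ∧
      ∀ (x : Fin (s + 1) → ℂ) (hx : x ≠ 0), eval x g ≠ 0 → Projectivization.mk ℂ x hx ∈ U := by
  obtain ⟨G, hG, hGU⟩ := hU
  obtain ⟨p, hp⟩ := hne
  obtain ⟨g, hg, hpg⟩ := (hGU p).1 hp
  obtain ⟨n, hn⟩ := hG g hg
  refine ⟨g, ?_, ⟨n, hn⟩, fun x hx h => ?_⟩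
  · rintro rfl
    simp at hpg
  · rw [hGU]
    refine ⟨g, hg, ?_⟩
    obtain ⟨c, hc, hcx⟩ := exists_rep x hx
    rw [hcx, eval_hom hn]
    exact mul_ne_zero (pow_ne_zero n hc) h

theorem isZariskiOpen_univ {s : ℕ} : IsZariskiOpen (Set.univ : Set (PS s)) :=
  ⟨{1}, fun g hg => ⟨0, by rw [Set.mem_singleton_iff.1 hg]; exact isHomogeneous_one _ _⟩,
    fun p => by simp⟩

theorem isZariskiOpen_ne {s : ℕ} (i : Fin (s + 1)) : IsZariskiOpen {p : PS s | p.rep i ≠ 0} :=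
  ⟨{X i}, fun g hg => ⟨1, by rw [Set.mem_singleton_iff.1 hg]; exact isHomogeneous_X _ _⟩,
    fun p => by simp⟩

/-- Two points with parallel representatives are equal. -/
theorem eq_of_cross {p p' : PS 2} (h01 : p.rep 0 * p'.rep 1 = p.rep 1 * p'.rep 0)
    (h02 : p.rep 0 * p'.rep 2 = p.rep 2 * p'.rep 0)
    (h12 : p.rep 1 * p'.rep 2 = p.rep 2 * p'.rep 1) : p = p' := by
  have hne := p.rep_nonzero
  have hne' := p'.rep_nonzero
  obtain ⟨i, hi⟩ : ∃ i, p'.rep i ≠ 0 := by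
    by_contra hcon
    push Not at hcon
    exact hne' (funext hcon)
  rw [← p.mk_rep, ← p'.mk_rep, Projectivization.mk_eq_mk_iff']
  refine ⟨p.rep i / p'.rep i, ?_⟩
  have hall : ∀ j, p.rep i * p'.rep j = p.rep j * p'.rep i := by
    intro j
    fin_cases i <;> fin_cases j
    · rfl
    · exact h01
    · exact h02
    · exact h01.symm
    · rfl
    · exact h12
    · exact h02.symm
    · exact h12.symm
    · rfl
  funext j
  rw [Pi.smul_apply, smul_eq_mul, div_mul_eq_mul_div, hall j, mul_div_assoc, div_self hi, mul_one]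

/-- Two distinct points `p, p'` determine `(1 : u : v² + u^(N+2))` for every `y = (1 : u : v)` with
`(p, y)` and `(p', y)` on the hypersurface. -/
theorem fam_pair {N : ℕ} {x x' y : Fin (2 + 1) → ℂ} (hy : y 0 ≠ 0)
    (hx : eval (Sum.elim x y) (fam N) = 0) (hx' : eval (Sum.elim x' y) (fam N) = 0)
    (hne : ¬ (x 0 * x' 1 = x 1 * x' 0 ∧ x 0 * x' 2 = x 2 * x' 0 ∧ x 1 * x' 2 = x 2 * x' 1)) :
    x 1 * x' 2 - x 2 * x' 1 ≠ 0 ∧
    (x 1 * x' 2 - x 2 * x' 1) * (y 1 / y 0) = x 2 * x' 0 - x 0 * x' 2 ∧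
    (x 1 * x' 2 - x 2 * x' 1) * ((y 2 / y 0) ^ 2 + (y 1 / y 0) ^ (N + 2)) =
      x 0 * x' 1 - x 1 * x' 0 := by
  rw [eval_fam] at hx hx'
  set u := y 1 / y 0 with hu
  set v := y 2 / y 0 with hv
  have e1 : y 1 = u * y 0 := by rw [hu]; field_simp
  have e2 : y 2 = v * y 0 := by rw [hv]; field_simp
  have hpow : y 0 ^ (N + 2) ≠ 0 := pow_ne_zero _ hy
  have k1 : x 0 + x 1 * u + x 2 * (v ^ 2 + u ^ (N + 2)) = 0 := by
    have : y 0 ^ (N + 2) * (x 0 + x 1 * u + x 2 * (v ^ 2 + u ^ (N + 2))) = 0 := by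
      rw [← hx, e1, e2, mul_pow]
      ring
    exact (mul_eq_zero.1 this).resolve_left hpow
  have k2 : x' 0 + x' 1 * u + x' 2 * (v ^ 2 + u ^ (N + 2)) = 0 := by
    have : y 0 ^ (N + 2) * (x' 0 + x' 1 * u + x' 2 * (v ^ 2 + u ^ (N + 2))) = 0 := by
      rw [← hx', e1, e2, mul_pow]
      ring
    exact (mul_eq_zero.1 this).resolve_left hpow
  set z := v ^ 2 + u ^ (N + 2) with hz
  have r1 : (x 1 * x' 2 - x 2 * x' 1) * u = x 2 * x' 0 - x 0 * x' 2 := by
    linear_combination x' 2 * k1 - x 2 * k2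
  have r2 : (x 1 * x' 2 - x 2 * x' 1) * z = x 0 * x' 1 - x 1 * x' 0 := by
    linear_combination -(x' 1) * k1 + x 1 * k2
  refine ⟨fun h0 => hne ?_, r1, r2⟩
  rw [h0, zero_mul] at r1 r2
  exact ⟨by linear_combination -r2, by linear_combination r1, by linear_combination h0⟩

theorem gridFree_fam (N t : ℕ) (ht : 3 ≤ t) : IsAlmostGridFree t (zeroLocus (fam N)) := by
  classical
  refine ⟨Set.univ, {p : PS 2 | p.rep 0 ≠ 0}, isZariskiOpen_univ, Set.univ_nonempty,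
    isZariskiOpen_ne 0, ?_, ?_⟩
  · have hx : (fun _ => 1 : Fin (2 + 1) → ℂ) ≠ 0 := fun h => one_ne_zero (congrFun h 0)
    refine ⟨Projectivization.mk ℂ _ hx, ?_⟩
    obtain ⟨c, hc, hcx⟩ := exists_rep _ hx
    change (Projectivization.mk ℂ _ hx).rep 0 ≠ 0
    rw [hcx]
    simpa using hc
  · rintro ⟨S, T, hS, hT, hST⟩
    obtain ⟨p, p', hpp, rfl⟩ := Finset.card_eq_two.1 hS
    obtain ⟨T', hT', hT'3⟩ := Finset.exists_subset_card_eq (hT.symm ▸ ht : 3 ≤ T.card)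
    obtain ⟨a, b, c, hab, hac, hbc, rfl⟩ := Finset.card_eq_three.1 hT'3
    have hne : ¬ (p.rep 0 * p'.rep 1 = p.rep 1 * p'.rep 0 ∧
        p.rep 0 * p'.rep 2 = p.rep 2 * p'.rep 0 ∧ p.rep 1 * p'.rep 2 = p.rep 2 * p'.rep 1) :=
      fun h => hpp (eq_of_cross h.1 h.2.1 h.2.2)
    have key : ∀ y ∈ ({a, b, c} : Finset (PS 2)), y.rep 0 ≠ 0 ∧
        p.rep 1 * p'.rep 2 - p.rep 2 * p'.rep 1 ≠ 0 ∧
        (p.rep 1 * p'.rep 2 - p.rep 2 * p'.rep 1) * (y.rep 1 / y.rep 0) =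
          p.rep 2 * p'.rep 0 - p.rep 0 * p'.rep 2 ∧
        (p.rep 1 * p'.rep 2 - p.rep 2 * p'.rep 1) *
          ((y.rep 2 / y.rep 0) ^ 2 + (y.rep 1 / y.rep 0) ^ (N + 2)) =
          p.rep 0 * p'.rep 1 - p.rep 1 * p'.rep 0 := by
      intro y hy
      have h1 := hST (Set.mk_mem_prod (show p ∈ (({p, p'} : Finset (PS 2)) : Set (PS 2)) by simp)
        (hT' hy))
      have h2 := hST (Set.mk_mem_prod (show p' ∈ (({p, p'} : Finset (PS 2)) : Set (PS 2)) by simp)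
        (hT' hy))
      have h0 : y.rep 0 ≠ 0 := h1.2.2
      exact ⟨h0, fam_pair h0 h1.1 h2.1 hne⟩
    have heq : ∀ y z : PS 2, y.rep 0 ≠ 0 → z.rep 0 ≠ 0 → y.rep 1 / y.rep 0 = z.rep 1 / z.rep 0 →
        y.rep 2 / y.rep 0 = z.rep 2 / z.rep 0 → y = z := by
      intro y z hy hz h1 h2
      rw [div_eq_div_iff hy hz] at h1 h2
      apply eq_of_cross
      · linear_combination -h1
      · linear_combination -h2
      · have : y.rep 0 * z.rep 0 * (y.rep 1 * z.rep 2 - y.rep 2 * z.rep 1) = 0 := by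
          linear_combination (z.rep 2 * y.rep 0) * h1 - (z.rep 1 * y.rep 0) * h2
        have h3 := (mul_eq_zero.1 this).resolve_left (mul_ne_zero hy hz)
        linear_combination h3
    obtain ⟨ha0, hD, ha1, ha2⟩ := key a (by simp)
    obtain ⟨hb0, -, hb1, hb2⟩ := key b (by simp)
    obtain ⟨hc0, -, hc1, hc2⟩ := key c (by simp)
    have hu1 : a.rep 1 / a.rep 0 = b.rep 1 / b.rep 0 := mul_left_cancel₀ hD (ha1.trans hb1.symm)
    have hu2 : a.rep 1 / a.rep 0 = c.rep 1 / c.rep 0 := mul_left_cancel₀ hD (ha1.trans hc1.symm)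
    have hv1 := mul_left_cancel₀ hD (ha2.trans hb2.symm)
    have hv2 := mul_left_cancel₀ hD (ha2.trans hc2.symm)
    rw [← hu1] at hv1
    rw [← hu2] at hv2
    have hs1 := sq_eq_sq_iff_eq_or_eq_neg.1 (add_right_cancel hv1)
    have hs2 := sq_eq_sq_iff_eq_or_eq_neg.1 (add_right_cancel hv2)
    rcases hs1 with hs1 | hs1
    · exact hab (heq a b ha0 hb0 hu1 hs1)
    · rcases hs2 with hs2 | hs2
      · exact hac (heq a c ha0 hc0 hu2 hs2)
      · exact hbc (heq b c hb0 hc0 (hu1.symm.trans hu2) (neg_injective (hs1.symm.trans hs2)))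

end Q41.GF
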