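import Mathlib
import Pool.Agent.Q41.GF.Defs
import Pool.Agent.Q41.GF.Family
import Pool.Agent.Q41.GF.Geom
import Pool.Agent.Q41.GF.Curve

set_option autoImplicit false
set_option synthInstance.maxHeartbeats 400000

namespace Q41.GF

open MvPolynomial LinearAlgebra.Projectivization

/-- `U^(N+2) + c₁ U + c₀` is squarefree for general `c₀, c₁`. -/
theorem squarefree_q (N : ℕ) {c0 c1 : ℂ}
    (hD : ((N : ℂ) + 2) * (-(((N : ℂ) + 2) * c0)) ^ (N + 1) + c1 * (((N : ℂ) + 1) * c1) ^ (N + 1) ≠ 0) :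
    Squarefree (Polynomial.X ^ (N + 2) + Polynomial.C c1 * Polynomial.X + Polynomial.C c0 :
      Polynomial ℂ) := by
  set q : Polynomial ℂ := Polynomial.X ^ (N + 2) + Polynomial.C c1 * Polynomial.X + Polynomial.C c0
    with hq
  have hder : Polynomial.derivative q = Polynomial.C ((N : ℂ) + 2) * Polynomial.X ^ (N + 1) +
      Polynomial.C c1 := by
    rw [hq]
    simp only [Polynomial.derivative_add, Polynomial.derivative_X_pow, Polynomial.derivative_mul,
      Polynomial.derivative_C, Polynomial.derivative_X]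
    push_cast
    simp
  apply Polynomial.Separable.squarefree
  rw [Polynomial.separable_def, Polynomial.isCoprime_iff_aeval_ne_zero_of_isAlgClosed ℂ ℂ]
  intro r
  by_contra hcon
  push Not at hcon
  obtain ⟨h1, h2⟩ := hcon
  rw [hder] at h2
  rw [hq] at h1
  simp only [Polynomial.coe_aeval_eq_eval, Polynomial.eval_add, Polynomial.eval_mul,
    Polynomial.eval_pow, Polynomial.eval_X, Polynomial.eval_C] at h1 h2
  have h3 : -(((N : ℂ) + 2) * c0) = (((N : ℂ) + 1) * c1) * r := by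
    linear_combination (-(N : ℂ) - 2) * h1 + r * h2
  apply hD
  rw [h3, mul_pow]
  linear_combination (((N : ℂ) + 1) * c1) ^ (N + 1) * h2

/-- the specialisation `F(x, ·)` of a bihomogeneous polynomial is homogeneous -/
theorem isHomogeneous_spec {F : MvPolynomial (Fin (2 + 1) ⊕ Fin (2 + 1)) ℂ} {a b : ℕ}
    (hF : IsBihom F a b) (x : Fin (2 + 1) → ℂ) :
    (aeval (Sum.elim (fun i => C (x i)) X) F : MvPolynomial (Fin (2 + 1)) ℂ).IsHomogeneous b := by
  rw [aeval_def, eval₂_eq']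
  apply IsHomogeneous.sum
  intro e he
  have hdeg : Finsupp.weight (Sum.elim (fun _ => 0) (fun _ => 1) :
    Fin (2 + 1) ⊕ Fin (2 + 1) → ℕ) e = b := hF.2 (mem_support_iff.1 he)
  rw [Finsupp.weight_apply, Finsupp.sum_fintype _ _ (by simp)] at hdeg
  rw [← zero_add b]
  apply IsHomogeneous.mul
  · exact isHomogeneous_C _ _
  · rw [← hdeg]
    apply IsHomogeneous.prod
    intro i _
    rcases i with i | i
    · simp only [Sum.elim_inl, smul_zero]
      rw [← C_pow]
      exact isHomogeneous_C _ _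
    · simp only [Sum.elim_inr, smul_eq_mul, mul_one]
      exact isHomogeneous_X_pow _ _

theorem eval_spec (F : MvPolynomial (Fin (2 + 1) ⊕ Fin (2 + 1)) ℂ) (x z : Fin (2 + 1) → ℂ) :
    eval z (aeval (Sum.elim (fun i => C (x i)) X) F : MvPolynomial (Fin (2 + 1)) ℂ) =
      eval (Sum.elim x z) F := by
  induction F using MvPolynomial.induction_on with
  | C c => simp
  | add p q hp hq => rw [map_add, map_add, map_add, hp, hq]
  | mul_X p i hp =>
    rw [map_mul, map_mul, map_mul, hp]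
    rcases i with i | i <;> simp

theorem eval_spec' (F : MvPolynomial (Fin (2 + 1) ⊕ Fin (2 + 1)) ℂ) (x z : Fin (2 + 1) → ℂ) :
    eval x (aeval (Sum.elim X (fun i => C (z i))) F : MvPolynomial (Fin (2 + 1)) ℂ) =
      eval (Sum.elim x z) F := by
  induction F using MvPolynomial.induction_on with
  | C c => simp
  | add p q hp hq => rw [map_add, map_add, map_add, hp, hq]
  | mul_X p i hp =>
    rw [map_mul, map_mul, map_mul, hp]
    rcases i with i | i <;> simp

/-- A general point `x` together with a general point of the curve `{y : (x, y) ∈ H}`. -/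
theorem exists_generic (N : ℕ) {P W : MvPolynomial (Fin (2 + 1)) ℂ} (hP : P ≠ 0)
    {y : Fin (2 + 1) → ℂ} (hy : y 0 = 1) (hW : eval y W ≠ 0) :
    ∃ (x : Fin (2 + 1) → ℂ) (u v : ℂ), eval x P ≠ 0 ∧ eval ![1, u, v] W ≠ 0 ∧
      x 0 + x 1 * u + x 2 * (v ^ 2 + u ^ (N + 2)) = 0 := by
  let e1 : Fin 3 → MvPolynomial (Fin 4) ℂ :=
    ![-(X 0 * X 2 + X 1 * (X 3 ^ 2 + X 2 ^ (N + 2))), X 0, X 1]
  let e2 : Fin 3 → MvPolynomial (Fin 4) ℂ := ![1, X 2, X 3]
  have h1 : (aeval e1 P : MvPolynomial (Fin 4) ℂ) ≠ 0 := by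
    obtain ⟨x, hx⟩ := exists_eval_ne_zero (mul_ne_zero hP (X_ne_zero (R := ℂ) (2 : Fin (2 + 1))))
    rw [map_mul, eval_X] at hx
    obtain ⟨v, hv⟩ : ∃ v : ℂ, v ^ 2 = -(x 0 / x 2) := IsAlgClosed.exists_pow_nat_eq _ (by norm_num)
    have hx2 : x 2 ≠ 0 := right_ne_zero_of_mul hx
    intro h0
    have h2 := congrArg (eval ![x 1, x 2, 0, v]) h0
    rw [map_zero] at h2
    apply left_ne_zero_of_mul hx
    rw [← h2]
    have h3 : eval ![x 1, x 2, 0, v] (aeval e1 P) =
        eval (fun i => eval ![x 1, x 2, 0, v] (e1 i)) P := by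
      rw [← MvPolynomial.bind₁, eval, eval₂Hom_bind₁]
      rfl
    rw [h3]
    congr 2
    funext i
    fin_cases i
    · simp [e1, hv]
      field_simp
    · simp [e1]
    · simp [e1]
  have h2 : (aeval e2 W : MvPolynomial (Fin 4) ℂ) ≠ 0 := by
    intro h0
    have h2 := congrArg (eval ![0, 0, y 1, y 2]) h0
    rw [map_zero] at h2
    apply hW
    rw [← h2]
    have h3 : eval ![0, 0, y 1, y 2] (aeval e2 W) =
        eval (fun i => eval ![0, 0, y 1, y 2] (e2 i)) W := by
      rw [← MvPolynomial.bind₁, eval, eval₂Hom_bind₁]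
      rfl
    rw [h3]
    congr 2
    funext i
    fin_cases i
    · simp [e2, hy]
    · simp [e2]
    · simp [e2]
  obtain ⟨p, hp⟩ := exists_eval_ne_zero (mul_ne_zero h1 h2)
  rw [map_mul] at hp
  have hp1 := left_ne_zero_of_mul hp
  have hp2 := right_ne_zero_of_mul hp
  have k1 : eval p (aeval e1 P) = eval (fun i => eval p (e1 i)) P := by
    rw [← MvPolynomial.bind₁, eval, eval₂Hom_bind₁]
    rfl
  have k2 : eval p (aeval e2 W) = eval (fun i => eval p (e2 i)) W := by
    rw [← MvPolynomial.bind₁, eval, eval₂Hom_bind₁]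
    rfl
  rw [k1] at hp1
  rw [k2] at hp2
  refine ⟨fun i => eval p (e1 i), p 2, p 3, hp1, ?_, ?_⟩
  · have : (fun i => eval p (e2 i)) = ![1, p 2, p 3] := by
      funext i
      fin_cases i <;> simp [e2]
    rw [← this]
    exact hp2
  · simp [e1]

/-- No member of the family of large degree is almost equal to `{F ∘ (id × σ) = 0}` with `σ` a
Cremona transformation and `F` of small degree in `y`. -/
theorem not_almostEqual (d : ℕ) {σ : Fin (2 + 1) → MvPolynomial (Fin (2 + 1)) ℂ}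
    (hσ : IsCremona σ) {F : MvPolynomial (Fin (2 + 1) ⊕ Fin (2 + 1)) ℂ} {a b : ℕ}
    (hF : IsBihom F a b) (hb : b ≤ d) :
    ¬ AlmostEqual (zeroLocus (fam (2 * d + 1))) (zeroLocus (comp F σ)) := by
  classical
  rintro ⟨X', Y', hX, hXne, hY, hYne, hEq⟩
  set N := 2 * d + 1 with hN
  obtain ⟨gX, hgX0, -, hgX⟩ := exists_basic hX hXne
  obtain ⟨gY, hgY0, ⟨nY, hnY⟩, hgY⟩ := exists_basic hY hYne
  obtain ⟨⟨k, hk⟩, -, τ, ⟨m, hm⟩, h, h', hh, -, hστ, -⟩ := hσ
  have key : ∀ x y : Fin (2 + 1) → ℂ, x ≠ 0 → y ≠ 0 → eval x gX ≠ 0 → eval y gY ≠ 0 →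
      (eval (Sum.elim x y) (fam N) = 0 ↔ eval (Sum.elim x (fun i => eval y (σ i))) F = 0) := by
    intro x y hx hy hxg hyg
    have h1 := Set.ext_iff.1 hEq (Projectivization.mk ℂ x hx, Projectivization.mk ℂ y hy)
    rw [Set.mem_inter_iff, Set.mem_inter_iff, mk_mem_zeroLocus (isBihom_fam N) hx hy,
      mk_mem_zeroLocus_comp hF hk hx hy] at h1
    have h2 : (Projectivization.mk ℂ x hx, Projectivization.mk ℂ y hy) ∈ X' ×ˢ Y' :=
      Set.mk_mem_prod (hgX x hx hxg) (hgY y hy hyg)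
    exact ⟨fun h0 => (h1.1 ⟨h0, h2⟩).1, fun h0 => (h1.2 ⟨h0, h2⟩).1⟩
  by_cases hF0 : F = 0
  · have hl : rename Sum.inl (gX * X 0) ≠ (0 : MvPolynomial (Fin (2 + 1) ⊕ Fin (2 + 1)) ℂ) := by
      rw [Ne, map_eq_zero_iff _ (rename_injective _ Sum.inl_injective)]
      exact mul_ne_zero hgX0 (X_ne_zero _)
    have hr : rename Sum.inr (gY * X 0) ≠ (0 : MvPolynomial (Fin (2 + 1) ⊕ Fin (2 + 1)) ℂ) := by
      rw [Ne, map_eq_zero_iff _ (rename_injective _ Sum.inr_injective)]
      exact mul_ne_zero hgY0 (X_ne_zero _)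
    obtain ⟨z, hz⟩ := exists_eval_ne_zero (mul_ne_zero (mul_ne_zero hl hr)
      (irreducible_fam N (by omega)).ne_zero)
    rw [map_mul, map_mul, eval_rename, eval_rename, map_mul, map_mul, eval_X, eval_X] at hz
    have hz1 := left_ne_zero_of_mul (left_ne_zero_of_mul hz)
    have hz2 := right_ne_zero_of_mul (left_ne_zero_of_mul hz)
    have hz3 := right_ne_zero_of_mul hz
    have hx : z ∘ Sum.inl ≠ 0 := fun h0 => right_ne_zero_of_mul hz1 (congrFun h0 0)
    have hy : z ∘ Sum.inr ≠ 0 := fun h0 => right_ne_zero_of_mul hz2 (congrFun h0 0)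
    have h1 := (key _ _ hx hy (left_ne_zero_of_mul hz1) (left_ne_zero_of_mul hz2)).2
      (by rw [hF0, map_zero])
    rw [Sum.elim_comp_inl_inr] at h1
    exact hz3 h1
  · obtain ⟨z0, hz0⟩ := exists_eval_ne_zero hF0
    set xs := z0 ∘ Sum.inl with hxs
    set zs := z0 ∘ Sum.inr with hzs
    have hz0' : eval (Sum.elim xs zs) F ≠ 0 := by rw [hxs, hzs, Sum.elim_comp_inl_inr]; exact hz0
    let cF : MvPolynomial (Fin (2 + 1)) ℂ := aeval (Sum.elim X (fun i => C (zs i))) F
    have hcF : cF ≠ 0 := by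
      intro h0
      apply hz0'
      rw [← eval_spec' F xs zs]
      change eval xs cF = 0
      rw [h0, map_zero]
    let Dp : MvPolynomial (Fin (2 + 1)) ℂ := C ((N : ℂ) + 2) * (-(C ((N : ℂ) + 2) * X 0)) ^ (N + 1) *
      X 2 + X 1 * (C ((N : ℂ) + 1) * X 1) ^ (N + 1)
    have hevD : ∀ x, eval x Dp = ((N : ℂ) + 2) * (-(((N : ℂ) + 2) * x 0)) ^ (N + 1) * x 2 +
        x 1 * (((N : ℂ) + 1) * x 1) ^ (N + 1) := by
      intro x
      simp [Dp]
    have hN1 : (N : ℂ) + 1 ≠ 0 := Nat.cast_add_one_ne_zero N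
    have hDp : Dp ≠ 0 := by
      intro h0
      have h1 := hevD ![0, 1, 1]
      rw [h0, map_zero] at h1
      simp at h1
      exact pow_ne_zero _ hN1 h1.symm
    have hPne : gX * X 2 * Dp * cF ≠ 0 :=
      mul_ne_zero (mul_ne_zero (mul_ne_zero hgX0 (X_ne_zero _)) hDp) hcF
    obtain ⟨y, hy⟩ := exists_eval_ne_zero (mul_ne_zero (mul_ne_zero hgY0 hh)
      (X_ne_zero (R := ℂ) (0 : Fin (2 + 1))))
    rw [map_mul, map_mul, eval_X] at hy
    have hy0 : y 0 ≠ 0 := right_ne_zero_of_mul hy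
    have hyh : eval y h ≠ 0 := right_ne_zero_of_mul (left_ne_zero_of_mul hy)
    have hyg : eval y gY ≠ 0 := left_ne_zero_of_mul (left_ne_zero_of_mul hy)
    have hev : ∀ y : Fin (2 + 1) → ℂ, eval y h * y 0 = eval (fun i => eval y (σ i)) (τ 0) := by
      intro y
      have h1 := congrArg (eval y) (hστ 0)
      rw [map_mul, eval_X] at h1
      rw [← h1, eval, eval₂Hom_bind₁]
      rfl
    have hyW : eval (fun i => (y 0)⁻¹ * y i) (gY * (h * X 0)) ≠ 0 := by
      rw [map_mul, eval_hom hnY, map_mul, eval_X, hev]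
      have h2 : (fun i => eval (fun i => (y 0)⁻¹ * y i) (σ i)) =
          fun i => (y 0)⁻¹ ^ k * eval y (σ i) := by
        funext i
        exact eval_hom (hk i) _ y
      rw [h2, eval_hom (hm 0), ← hev]
      exact mul_ne_zero (mul_ne_zero (pow_ne_zero _ (inv_ne_zero hy0)) hyg)
        (mul_ne_zero (pow_ne_zero _ (pow_ne_zero _ (inv_ne_zero hy0))) (mul_ne_zero hyh hy0))
    obtain ⟨x, u, v, hxP, huv, hcur⟩ := exists_generic N hPne (inv_mul_cancel₀ hy0) hyW
    rw [map_mul, map_mul, map_mul, eval_X] at hxP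
    rw [map_mul, map_mul, eval_X] at huv
    have hxcF : eval x cF ≠ 0 := right_ne_zero_of_mul hxP
    have hxD : eval x Dp ≠ 0 := right_ne_zero_of_mul (left_ne_zero_of_mul hxP)
    have hx2 : x 2 ≠ 0 := right_ne_zero_of_mul (left_ne_zero_of_mul (left_ne_zero_of_mul hxP))
    have hxg : eval x gX ≠ 0 := left_ne_zero_of_mul (left_ne_zero_of_mul (left_ne_zero_of_mul hxP))
    have hx : x ≠ 0 := fun h0 => hx2 (congrFun h0 2)
    have hug : eval ![1, u, v] gY ≠ 0 := left_ne_zero_of_mul huv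
    have huh : eval ![1, u, v] h ≠ 0 := left_ne_zero_of_mul (right_ne_zero_of_mul huv)
    set q : Polynomial ℂ := Polynomial.X ^ (N + 2) + Polynomial.C (x 1 / x 2) * Polynomial.X +
      Polynomial.C (x 0 / x 2) with hq
    have hqev : ∀ u v : ℂ, v ^ 2 = -q.eval u ↔
        x 0 + x 1 * u + x 2 * (v ^ 2 + u ^ (N + 2)) = 0 := by
      intro u v
      rw [hq]
      simp only [Polynomial.eval_add, Polynomial.eval_mul, Polynomial.eval_pow, Polynomial.eval_X,
        Polynomial.eval_C]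
      constructor
      · intro h1
        rw [h1]
        field_simp
        ring
      · intro h1
        apply mul_left_cancel₀ hx2
        field_simp
        linear_combination h1
    have hqdeg : q.natDegree = N + 2 := by
      rw [hq]
      compute_degree!
      rw [if_neg (by omega), add_zero]
      exact one_ne_zero
    have hqsq : Squarefree q := by
      apply squarefree_q
      intro h0
      apply hxD
      rw [hevD]
      have e0 : x 0 = (x 0 / x 2) * x 2 := by field_simp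
      have e1 : x 1 = (x 1 / x 2) * x 2 := by field_simp
      rw [e0, e1]
      have f0 : (-(((N : ℂ) + 2) * (x 0 / x 2 * x 2))) ^ (N + 1) =
          (-(((N : ℂ) + 2) * (x 0 / x 2))) ^ (N + 1) * x 2 ^ (N + 1) := by
        rw [← mul_pow]
        ring
      have f1 : (((N : ℂ) + 1) * (x 1 / x 2 * x 2)) ^ (N + 1) =
          (((N : ℂ) + 1) * (x 1 / x 2)) ^ (N + 1) * x 2 ^ (N + 1) := by
        rw [← mul_pow]
        ring
      rw [f0, f1]
      linear_combination x 2 ^ (N + 2) * h0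
    have hfin := curve_main hqsq (by rw [hqdeg, hN]; exact ⟨d + 1, by ring⟩) σ τ hm hστ
      (isHomogeneous_spec hF x) (fun h0 => hxcF (by
        change eval x (aeval (Sum.elim X (fun i => C (zs i))) F) = 0
        rw [eval_spec', ← eval_spec, h0, map_zero])) hb gY
      (fun u v hc hg => by
        rw [eval_spec]
        refine (key x ![1, u, v] hx (fun h0 => one_ne_zero (congrFun h0 0)) hxg hg).1 ?_
        rw [eval_fam]
        have := (hqev u v).1 hc
        simpa using this)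
      ⟨u, v, (hqev u v).2 hcur, hug⟩ ⟨u, v, (hqev u v).2 hcur, huh⟩
    rw [hqdeg] at hfin
    omega

end Q41.GF
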